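import Pool.Agent.H33.TF.Data

/-!
# MP_5ee2d0_ag: the program in all dimensions, definitions

`Y` is a projective variety of dimension `n` with klt singularities, `V = N^1(Y) ⊗ ℝ` and `E` the set of
the prime divisors over `Y` (those of `Y` among them, their centres have codimension one). The numbers
`σ_E(x)` are those of Nakayama (2004); the non-nef locus of `x` is the union of the centres of the `E` with
`σ_E(x) > 0`.
-/

namespace Pool.Agent.H55.XN

open Filter Topology

/-- A projective variety `Y` with klt singularities, and a very ample class `H`. -/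
structure Mod (V E : Type) [AddCommGroup V] [Module ℝ V] (Psef : V → Prop) where
  Nef : V → Prop
  Amp : V → Prop
  /-- classes of Cartier divisors with rational coefficients -/
  Rat : V → Prop
  /-- a very ample class -/
  H : V
  /-- the codimension of the centre of a prime divisor over `Y` -/
  cod : E → ℕ
  /-- `σ_E(x)`; zero if `x` is not pseudoeffective -/
  sig : E → V → ℝ
  /-- the product of the classes of `s` with `H^(n - k)`, `k` the number of the elements of `s`; zero if
  `k > n` -/
  I : Multiset V → ℝ
  /-- the restriction of `x` to the intersection of `n - k` very general members of `|H|` is nef -/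
  NefOn : ℕ → V → Prop
  I_lin : ∀ s, IsLinearMap ℝ fun a => I (a ::ₘ s)
  nef_psef : ∀ x, Nef x → Psef x
  nef_H : Nef H
  nef_smul : ∀ (t : ℝ) x, 0 ≤ t → Nef x → Nef (t • x)
  /-- rational classes are dense -/
  rat : ∀ x (t : ℝ), 0 < t → ∃ y, Rat y ∧ Amp (y - x) ∧ Nef (x + t • H - y)
  amp_nef : ∀ x, Amp x → Nef x
  psef_add : ∀ x y, Psef x → Psef y → Psef (x + y)
  sig_nonneg : ∀ e x, 0 ≤ sig e x
  /-- Nakayama 2004, III.1 -/
  sub : ∀ e x y, Psef x → Psef y → sig e (x + y) ≤ sig e x + sig e y
  nef_sig : ∀ e x, Nef x → sig e x = 0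
  lim : ∀ e x, Psef x → Tendsto (fun t : ℝ => sig e (x + t • H)) (𝓝[>] 0) (𝓝 (sig e x))
  /-- Ein, Lazarsfeld, Mustaţă, Nakamaye and Popa 2006 -/
  nef_of : ∀ x, Psef x → (∀ e, sig e x = 0) → Nef x
  nefOn_nef : ∀ k x, Nef x → NefOn k x
  /-- A curve `C` with `x.C < 0` lies in the non-nef locus of `x`, a countable union of closed sets. If these
  have codimension at least `k` then the locus meets a very general complete intersection of dimension `k`
  in countably many points. -/
  nefOn_of : ∀ k x, Psef x → (∀ e, cod e < k → sig e x = 0) → NefOn k x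
  /-- the restriction of a pseudoeffective class to a very general complete intersection is
  pseudoeffective -/
  pos : ∀ a s, Psef a → (∀ b ∈ s, NefOn (s.card + 1) b) → 0 ≤ I (a ::ₘ s)
  /-- Let `k` be the codimension of the centre `Z` of `E`, and suppose that the non-nef locus of `x` has no
  component of smaller codimension. Let `y` be rational, `y - x` ample. The stable base locus of `y` is
  contained in the non-nef locus of `x` (Ein, Lazarsfeld, Mustaţă, Nakamaye and Popa 2006; Cacciola and Di
  Biagio 2013 for klt varieties), so it meets a complete intersection `S` of dimension `k` of members of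
  `|H|` in finitely many points, if `S` is very general. There are only countably many classes `y`, so we
  take the same `S` for all `y`, and a point `z` of `S ∩ Z`. Let `b` be the base ideal of `|m y|`, `m`
  divisible. Then `q = ord_E(b)` is at least `m σ_E(y)`; the order `o` of the ideal `b|S` at `z` is at least
  `c q`, `c` the constant of Izumi (1985) for a component of the restriction of `E` to the inverse image of
  `S`, it does not depend on `y` and `m`; the Samuel multiplicity `l` of `b|S` at `z` is at least `o^k`; and
  it is at most `(m y|S)^k`, since the movable part of the linear system on `S` is free on a blow up. -/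
  mult : ∀ e x, Psef x → (∀ f, cod f < cod e → sig f x = 0) → ∃ c : ℝ, 0 < c ∧
    ∀ y, Rat y → Amp (y - x) → ∃ (m : ℕ) (q o l : ℝ), 0 < m ∧ m * sig e y ≤ q ∧ c * q ≤ o ∧
      o ^ cod e ≤ l ∧ l ≤ I (Multiset.replicate (cod e) ((m : ℝ) • y))

/-- A program `Y_0 ⇢ Y_1 ⇢ ...` of small steps for the class `D`, with scaling of `A`. -/
structure Prog (V E : Type) [AddCommGroup V] [Module ℝ V] where
  Psef : V → Prop
  Y : ℕ → Mod V E Psef
  L : V
  D : V
  A : V
  /-- the steps are `L`-trivial -/
  L_nef : ∀ i, (Y i).Nef L
  L_cube : ∀ i s, (Y i).I (L ::ₘ L ::ₘ L ::ₘ s) = 0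
  D_psef : Psef D
  LD_psef : Psef (L - D)
  /-- the numbers of the program with scaling of an ample class `A` of `Y_0`; they tend to zero (Birkar,
  Cascini, Hacon and McKernan 2010) -/
  t : ℕ → ℝ
  t_nonneg : ∀ i, 0 ≤ t i
  t_lim : Tendsto t atTop (𝓝 0)
  nef : ∀ i, (Y i).Nef (D + t i • A)
  /-- `C H - A` is ample on `Y_i` if `C` is large -/
  bound : ∀ i, ∃ C : ℝ, 0 < C ∧ (Y i).Nef (C • (Y i).H - A)
  /-- the centre of `E` on `Y_i` is contained in the locus of step `i` -/
  Inv : ℕ → E → Prop
  /-- otherwise the step is an isomorphism at the generic point of the centre; the divisors of a linear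
  system on `Y_i` and their strict transforms on `Y_(i+1)` have the same local equations there. (If `x` is
  not pseudoeffective then both numbers are zero.) -/
  iso : ∀ i e, ¬ Inv i e → (Y (i + 1)).cod e = (Y i).cod e ∧ ∀ x, (Y (i + 1)).sig e x = (Y i).sig e x

/-- `X` is a smooth projective variety of dimension `n` and `K_X ~ 0`, `L` a nef class, `L^3 = 0`, `x ≥ 0` a
b-divisor such that `L - x` is a nef b-class, and `a_E` are the discrepancies over `X`. Let `lam` be smaller than the log canonical threshold of `x`; `Y_0 → X` is `ℚ`-factorial, its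
exceptional divisors are the `E` exceptional over `X` with `a_E ≤ lam x_E`. Let `F_j` be the prime divisors of
`Y_0` with `x_j > 0`. Then `lam x_j - a_j > 0`, and the steps of the program for `D = L - s ∑ x_j F_j`, `s > 0`
small, are small, `L`-trivial, and crepant for the generalized pair `(Y_0, ∑ (lam x_j - a_j) F_j + M)`, `M` a
multiple of `L - s' x`, `0 < s' ≤ 1`; it has the discrepancies `a_E - lam x_E > 0` at the divisors which are exceptional
over `Y_0`, that is, at those with a centre of codimension at least two. So all the models `Y_i` are terminal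
and smooth in codimension two. This is an infinite sequence of steps `Y_0 ⇢ Y_1 ⇢ ...`. -/
structure Run (V : Type) {E : Type} [AddCommGroup V] [Module ℝ V] (a : E → ℕ) (x : E → ℝ) (lam : ℝ)
    extends Prog V E where
  /-- otherwise the program stops -/
  not_nef : ∀ i, ¬ (Y i).Nef D
  /-- the steps are small -/
  small : ∀ i e, Inv i e → 2 ≤ (Y i).cod e
  /-- the divisors `F_j` -/
  J : Type
  [fin : Fintype J]
  F : J → E
  x_pos : ∀ j, 0 < x (F j)
  a_lt : ∀ j, a (F j) < lam * x (F j)
  disc_pos : ∀ e, 2 ≤ (Y 0).cod e → lam * x e < a e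
  /-- the multiplicity along `E` of the pull back of `F_j` on `Y_i` -/
  ord : ℕ → E → J → ℝ
  nonneg : ∀ i e j, 2 ≤ (Y 0).cod e → 0 ≤ ord i e j
  /-- a terminal variety is smooth in codimension two -/
  int : ∀ i e, (Y i).cod e = 2 → 2 ≤ (Y 0).cod e → ∀ j, ∃ z : ℕ, ord i e j = z
  /-- negativity lemma: the pull back of the class of `L - x` on `Y_i` is at least `L - x`, since this is b-nef -/
  le : ∀ i e, 2 ≤ (Y 0).cod e → ∑ j, x (F j) * ord i e j ≤ x e
  /-- negativity lemma -/
  mono : ∀ i e, 2 ≤ (Y 0).cod e → ∑ j, x (F j) * ord i e j ≤ ∑ j, x (F j) * ord (i + 1) e j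
  mono_lt : ∀ i e, 2 ≤ (Y 0).cod e → Inv i e →
    ∑ j, x (F j) * ord i e j < ∑ j, x (F j) * ord (i + 1) e j
  /-- If the locus created by step `i` has a component `T` of codimension two then `T` is contained in some
  `F_j`, since `L` has degree zero and `D` positive degree on the created curves. `f` is the blow up of `T`,
  its discrepancy for the generalized pair is at most one minus the multiplicity of the boundary. -/
  create : ∀ i e, Inv i e → (Y (i + 1)).cod e = 2 → ∃ f, 2 ≤ (Y 0).cod f ∧ Inv i f ∧
    (Y (i + 1)).cod f = 2 ∧ (∃ j, 0 < ord (i + 1) f j) ∧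
    a f - lam * x f ≤ 1 - ∑ j, (lam * x (F j) - a (F j)) * ord (i + 1) f j
  /-- the dimension of the span of the classes of subvarieties of codimension two in
  `H_{2n-4}(Y_i, ℚ)` -/
  rk : ℕ → ℕ
  /-- If the locus created by step `i` has codimension at least three, then `H_{2n-4}(Y_(i+1), ℚ)` is the
  Borel-Moore homology of its complement `U`, and a component of codimension two of the locus of the step
  is in the kernel of the map from `H_{2n-4}(Y_i, ℚ)`; its class is not zero. (Kawamata, Matsuda, Matsuki
  1987, 5-1-17) -/
  drop : ∀ i, (∀ e, Inv i e → (Y (i + 1)).cod e ≠ 2) → rk (i + 1) ≤ rk i ∧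
    ((∃ e, Inv i e ∧ (Y i).cod e = 2) → rk (i + 1) < rk i)
  res : ∀ e' : ℝ, 0 < e' → Nonempty (Pool.Agent.H33.FT.Count a x (fun e => 2 ≤ (Y 0).cod e)
    (fun e => (Y 0).cod e = 2) lam (fun e => ∑ j, x (F j) * ord 0 e j) e')

attribute [instance] Run.fin

/-- An infinite sequence of steps, with the space of classes. -/
structure Steps {E : Type} (a : E → ℕ) (x : E → ℝ) (lam : ℝ) where
  V : Type
  [grp : AddCommGroup V]
  [mod : Module ℝ V]
  run : Run V a x lam

end Pool.Agent.H55.XN
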