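import Pool.Agent.H55.XN.Data

/-!
# MP_5ee2d0_ag: a class without centres of codimension one and two is nef

`Y` is a projective variety of dimension `n` with klt singularities, `V = N^1(Y) ⊗ ℝ` and `E` the set of
the prime divisors over `Y` (those of `Y` among them, their centres have codimension one). The numbers
`σ_E(x)` are those of Nakayama (2004); the non-nef locus of `x` is the union of the centres of the `E` with
`σ_E(x) > 0`. The proof is the one of helper54.
-/

namespace Pool.Agent.H55.XN

open Filter Topology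

namespace Mod

variable {V E : Type} [AddCommGroup V] [Module ℝ V] {Psef : V → Prop} (Y : Mod V E Psef)

theorem I_add (a b : V) (s : Multiset V) : Y.I ((a + b) ::ₘ s) = Y.I (a ::ₘ s) + Y.I (b ::ₘ s) :=
  (Y.I_lin s).map_add a b

theorem I_sub (a b : V) (s : Multiset V) : Y.I ((a - b) ::ₘ s) = Y.I (a ::ₘ s) - Y.I (b ::ₘ s) :=
  (IsLinearMap.mk' _ (Y.I_lin s)).map_sub a b

theorem I_smul (t : ℝ) (a : V) (s : Multiset V) : Y.I ((t • a) ::ₘ s) = t * Y.I (a ::ₘ s) :=
  (Y.I_lin s).map_smul t a

theorem I_replicate_smul (t : ℝ) (a : V) (k : ℕ) (s : Multiset V) :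
    Y.I (Multiset.replicate k (t • a) + s) = t ^ k * Y.I (Multiset.replicate k a + s) := by
  induction k generalizing s with
  | zero => simp
  | succ k ih =>
    rw [Multiset.replicate_succ, Multiset.cons_add, Y.I_smul, ← Multiset.add_cons, ih,
      Multiset.replicate_succ, Multiset.cons_add, ← Multiset.add_cons, pow_succ]
    ring

/-- the products are polynomials -/
theorem continuous_I (D H : V) (k : ℕ) (s : Multiset V) :
    Continuous fun t : ℝ => Y.I (Multiset.replicate k (D + t • H) + s) := by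
  induction k generalizing s with
  | zero => simpa using continuous_const
  | succ k ih =>
    have e : (fun t : ℝ => Y.I (Multiset.replicate (k + 1) (D + t • H) + s)) = fun t : ℝ =>
        Y.I (Multiset.replicate k (D + t • H) + (D ::ₘ s)) +
          t * Y.I (Multiset.replicate k (D + t • H) + (H ::ₘ s)) := by
      funext t
      rw [Multiset.replicate_succ, Multiset.cons_add, Y.I_add, Y.I_smul, Multiset.add_cons,
        Multiset.add_cons]
    rw [e]
    exact (ih _).add (continuous_id.mul (ih _))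

/-- If `b - a` is pseudoeffective and `a`, `b` are nef on the complete intersections of dimension `k`, then
`a^k ≤ b^k` there. -/
theorem pow_le {k : ℕ} {a b : V} (hab : Psef (b - a)) (ha : Y.NefOn k a) (hb : Y.NefOn k b) (i : ℕ)
    (s : Multiset V) (hs : ∀ x ∈ s, Y.NefOn k x) (hi : i + s.card = k) :
    Y.I (Multiset.replicate i a + s) ≤ Y.I (Multiset.replicate i b + s) := by
  induction i generalizing s with
  | zero => simp
  | succ i ih =>
    have h1 : Y.I (a ::ₘ (Multiset.replicate i a + s)) ≤ Y.I (b ::ₘ (Multiset.replicate i a + s)) := by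
      have h2 := Y.pos (b - a) (Multiset.replicate i a + s) hab (by
        have h3 : (Multiset.replicate i a + s).card + 1 = k := by
          rw [Multiset.card_add, Multiset.card_replicate]
          omega
        rw [h3]
        intro x hx
        rcases Multiset.mem_add.1 hx with hx | hx
        · rw [Multiset.eq_of_mem_replicate hx]
          exact ha
        · exact hs x hx)
      rw [Y.I_sub] at h2
      linarith
    have h3 := ih (b ::ₘ s) (fun x hx => by
      rcases Multiset.mem_cons.1 hx with rfl | hx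
      · exact hb
      · exact hs x hx) (by rw [Multiset.card_cons]; omega)
    rw [Multiset.replicate_succ, Multiset.cons_add, Multiset.replicate_succ, Multiset.cons_add]
    rw [Multiset.add_cons, Multiset.add_cons] at h3
    exact h1.trans h3

/-- **Lemma N.** Let `L` be nef, `L^3` numerically trivial, `L - D` and `D` pseudoeffective, and suppose
that the non-nef locus of `D` has no component of codimension one or two. Then `D` is nef. -/
theorem nef_of_cod {L D : V} (hL : Y.Nef L) (hL3 : ∀ s, Y.I (L ::ₘ L ::ₘ L ::ₘ s) = 0)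
    (hLD : Psef (L - D)) (hD : Psef D) (h2 : ∀ e, Y.cod e ≤ 2 → Y.sig e D = 0) : Y.Nef D := by
  classical
  by_contra hn
  -- the smallest codimension
  have hex : ∃ k, ∃ e, Y.cod e = k ∧ Y.sig e D ≠ 0 := by
    by_contra h
    push Not at h
    exact hn (Y.nef_of D hD fun e => h _ e rfl)
  obtain ⟨e, hek, hsig⟩ := Nat.find_spec hex
  set k := Nat.find hex with hk
  have hmin : ∀ f, Y.cod f < k → Y.sig f D = 0 := by
    intro f hf
    by_contra h
    exact Nat.find_min hex hf ⟨f, rfl, h⟩
  have hk3 : 3 ≤ k := by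
    by_contra h
    exact hsig (h2 e (by omega))
  have hpos : 0 < Y.sig e D := lt_of_le_of_ne (Y.sig_nonneg e D) (Ne.symm hsig)
  -- `D` is nef on the complete intersection
  have hDk : Y.NefOn k D := Y.nefOn_of k D hD hmin
  have hLk : Y.NefOn k L := Y.nefOn_nef k L hL
  -- `D^k = 0`
  have h0 : Y.I (Multiset.replicate k D) ≤ 0 := by
    have h4 := Y.pow_le hLD hDk hLk k 0 (by simp) (by simp)
    rw [add_zero, add_zero] at h4
    have h5 : Y.I (Multiset.replicate k L) = 0 := by
      obtain ⟨j, hj⟩ : ∃ j, k = j + 1 + 1 + 1 := ⟨k - 3, by omega⟩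
      rw [hj, Multiset.replicate_succ, Multiset.replicate_succ, Multiset.replicate_succ, hL3]
    rwa [h5] at h4
  obtain ⟨c, hc, hmul⟩ := Y.mult e D hD (by rw [hek]; exact hmin)
  -- the inequality for `D + t H`
  have key : ∀ t : ℝ, 0 < t → (c * Y.sig e (D + t • Y.H)) ^ k ≤
      Y.I (Multiset.replicate k (D + t • Y.H)) := by
    intro t ht
    obtain ⟨y, hy1, hy2, hy3⟩ := Y.rat D t ht
    obtain ⟨m, q, o, l, hm, h5, h6, h7, h8⟩ := hmul y hy1 hy2
    rw [hek] at h7 h8
    have hm' : (0 : ℝ) < m := by exact_mod_cast hm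
    have hyD : Psef (y - D) := Y.nef_psef _ (Y.amp_nef _ hy2)
    have hyP : Psef y := by
      have := Y.psef_add _ _ hD hyD
      rwa [add_sub_cancel] at this
    have h9 : Y.sig e (D + t • Y.H) ≤ Y.sig e y := by
      have := Y.sub e y (D + t • Y.H - y) hyP (Y.nef_psef _ hy3)
      rwa [add_sub_cancel, Y.nef_sig e _ hy3, add_zero] at this
    have h10 : Y.I (Multiset.replicate k y) ≤ Y.I (Multiset.replicate k (D + t • Y.H)) := by
      have hz : ∀ f, Y.cod f < k → Y.sig f y = 0 := by
        intro f hf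
        have := Y.sub f D (y - D) hD hyD
        rw [add_sub_cancel, Y.nef_sig f _ (Y.amp_nef _ hy2), hmin f hf] at this
        linarith [Y.sig_nonneg f y]
      have hDt : Psef (D + t • Y.H) := by
        have := Y.psef_add _ _ hyP (Y.nef_psef _ hy3)
        rwa [add_sub_cancel] at this
      have hz' : ∀ f, Y.cod f < k → Y.sig f (D + t • Y.H) = 0 := by
        intro f hf
        have h11 := Y.sub f D (t • Y.H) hD (Y.nef_psef _ (Y.nef_smul t _ ht.le Y.nef_H))
        rw [Y.nef_sig f _ (Y.nef_smul t _ ht.le Y.nef_H), hmin f hf] at h11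
        linarith [Y.sig_nonneg f (D + t • Y.H)]
      have h12 := Y.pow_le (Y.nef_psef _ hy3) (Y.nefOn_of k y hyP hz) (Y.nefOn_of k _ hDt hz') k 0
        (by simp) (by simp)
      rwa [add_zero, add_zero] at h12
    have h13 : (c * (m * Y.sig e y)) ^ k ≤ l := by
      refine le_trans (pow_le_pow_left₀ (by have := Y.sig_nonneg e y; positivity) ?_ k) h7
      exact le_trans (mul_le_mul_of_nonneg_left h5 hc.le) h6
    have h14 : Y.I (Multiset.replicate k ((m : ℝ) • y)) = (m : ℝ) ^ k * Y.I (Multiset.replicate k y) := by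
      have := Y.I_replicate_smul m y k 0
      rwa [add_zero, add_zero] at this
    have h15 : (m : ℝ) ^ k * (c * Y.sig e y) ^ k ≤ (m : ℝ) ^ k * Y.I (Multiset.replicate k y) := by
      rw [← h14, ← mul_pow]
      calc ((m : ℝ) * (c * Y.sig e y)) ^ k = (c * (m * Y.sig e y)) ^ k := by ring
        _ ≤ _ := h13.trans h8
    have h16 : (c * Y.sig e y) ^ k ≤ Y.I (Multiset.replicate k y) :=
      le_of_mul_le_mul_left h15 (by positivity)
    refine le_trans (pow_le_pow_left₀ ?_ ?_ k) (h16.trans h10)
    · exact mul_nonneg hc.le (Y.sig_nonneg _ _)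
    · exact mul_le_mul_of_nonneg_left h9 hc.le
  -- the limit
  have hlim1 : Tendsto (fun t : ℝ => (c * Y.sig e (D + t • Y.H)) ^ k) (𝓝[>] 0)
      (𝓝 ((c * Y.sig e D) ^ k)) := ((Y.lim e D hD).const_mul c).pow k
  have hlim2 : Tendsto (fun t : ℝ => Y.I (Multiset.replicate k (D + t • Y.H))) (𝓝[>] 0)
      (𝓝 (Y.I (Multiset.replicate k D))) := by
    have h17 := (Y.continuous_I D Y.H k 0).tendsto 0
    simp only [add_zero, zero_smul] at h17
    exact h17.mono_left nhdsWithin_le_nhds
  have h18 : (c * Y.sig e D) ^ k ≤ Y.I (Multiset.replicate k D) :=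
    le_of_tendsto_of_tendsto hlim1 hlim2 (eventually_nhdsWithin_of_forall fun t ht => key t ht)
  have h19 : 0 < (c * Y.sig e D) ^ k := by positivity
  linarith

end Mod

namespace Prog

variable {V E : Type} [AddCommGroup V] [Module ℝ V] (P : Prog V E)

/-- **Theorem.** If from `Y_N` on nothing of codimension at most two is in the locus of a step, then `D` is
nef on `Y_N`. -/
theorem nef_of_iso (N : ℕ) (h : ∀ i, N ≤ i → ∀ e, P.Inv i e → 3 ≤ (P.Y i).cod e) :
    (P.Y N).Nef P.D := by
  have h1 : ∀ e, (P.Y N).cod e ≤ 2 → ∀ j, (P.Y (N + j)).cod e = (P.Y N).cod e ∧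
      ∀ x, (P.Y (N + j)).sig e x = (P.Y N).sig e x := by
    intro e he j
    induction j with
    | zero => exact ⟨rfl, fun x => rfl⟩
    | succ j ih =>
      have h2 : ¬ P.Inv (N + j) e := by
        intro h3
        have h4 := h (N + j) (by omega) e h3
        rw [ih.1] at h4
        omega
      have h5 := P.iso (N + j) e h2
      exact ⟨h5.1.trans ih.1, fun x => (h5.2 x).trans (ih.2 x)⟩
  refine (P.Y N).nef_of_cod (P.L_nef N) (P.L_cube N) P.LD_psef P.D_psef fun e he => ?_
  have h3 : ∀ j, (P.Y N).sig e (P.D + P.t (N + j) • P.A) = 0 := fun j => by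
    rw [← (h1 e he j).2]
    exact (P.Y (N + j)).nef_sig e _ (P.nef (N + j))
  have hps : ∀ j, P.Psef (P.D + P.t (N + j) • P.A) := fun j =>
    (P.Y (N + j)).nef_psef _ (P.nef (N + j))
  by_cases h0 : ∃ j, P.t (N + j) = 0
  · obtain ⟨j, hj⟩ := h0
    have := h3 j
    rwa [hj, zero_smul, add_zero] at this
  push Not at h0
  obtain ⟨C, hC, hCA⟩ := P.bound N
  -- the values at `D + t C H` are zero
  have h4 : ∀ j, (P.Y N).sig e (P.D + (P.t (N + j) * C) • (P.Y N).H) = 0 := fun j => by
    have hn := (P.Y N).nef_smul (P.t (N + j)) _ (P.t_nonneg _) hCA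
    have h5 := (P.Y N).sub e _ _ (hps j) ((P.Y N).nef_psef _ hn)
    rw [h3 j, (P.Y N).nef_sig e _ hn, add_zero] at h5
    have h6 : P.D + P.t (N + j) • P.A + P.t (N + j) • (C • (P.Y N).H - P.A) =
        P.D + (P.t (N + j) * C) • (P.Y N).H := by
      rw [smul_sub, smul_smul]
      abel
    rw [h6] at h5
    exact le_antisymm h5 ((P.Y N).sig_nonneg e _)
  have h7 : Tendsto (fun j : ℕ => P.t (N + j) * C) atTop (𝓝[>] 0) := by
    refine tendsto_nhdsWithin_iff.2 ⟨?_, Eventually.of_forall fun j =>
      mul_pos (lt_of_le_of_ne (P.t_nonneg _) (Ne.symm (h0 j))) hC⟩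
    have h8 : Tendsto (fun j : ℕ => P.t (N + j)) atTop (𝓝 0) :=
      P.t_lim.comp (tendsto_atTop_mono (fun j => Nat.le_add_left j N) tendsto_id)
    have := h8.mul_const C
    rwa [zero_mul] at this
  have h9 := ((P.Y N).lim e P.D P.D_psef).comp h7
  have h10 : Tendsto (fun _ : ℕ => (0 : ℝ)) atTop (𝓝 ((P.Y N).sig e P.D)) := by
    refine h9.congr fun j => ?_
    exact h4 j
  exact tendsto_nhds_unique h10 tendsto_const_nhds

end Prog

end Pool.Agent.H55.XN
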