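import Pool.Agent.H55.XN.Nef
import Pool.Agent.H33.TF.Prog

/-!
# MP_5ee2d0_ag: termination of the program in all dimensions

`X` is a smooth projective variety of dimension `n` and `K_X ~ 0`, `L` a nef class, `L^3 = 0`, `x ≥ 0` a
b-divisor such that `L - t x` is a nef b-class for small `t ≥ 0`, and `a_E` are the discrepancies over
`X`. Let `lam` be smaller than the log canonical threshold of `x`; `Y → X` is `Q`-factorial, its exceptional
divisors are the `E` exceptional over `X` with `a_E - lam x_E ≤ 0`. Let `F_j` be the prime divisors of `Y`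
with `x_j > 0`. Then `lam x_j - a_j > 0`, and the steps of the program for `D = L - t ∑ x_j F_j`, `t` small,
are small and `L`-trivial. The divisors `E` exceptional over `Y` satisfy `a_E - lam x_E > 0`, so all
the models `Y_i` are terminal and smooth in codimension two. There is no infinite sequence of steps.

The proof that there are only finitely many steps which create something of codimension two is the one of
helper87 (`Pool.Agent.H87.FB.Steps`); the version in dimension `n` was also written by helper57.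
-/

namespace Pool.Agent.H55.XN

open Filter Topology

/-- (for the proof) -/
structure Aux (V E : Type) [AddCommGroup V] [Module ℝ V] extends Prog V E where
  not_nef : ∀ i, ¬ (Y i).Nef D
  small : ∀ i e, Inv i e → 2 ≤ (Y i).cod e
  J : Type
  [fin : Fintype J]
  x : J → ℝ
  x_pos : ∀ j, 0 < x j
  S : Set E
  coef : E → ℝ
  C : ℝ
  coef_le : ∀ e ∈ S, coef e ≤ C
  ord : ℕ → E → J → ℝ
  int : ∀ i, ∀ e ∈ S, (Y i).cod e = 2 → ∀ j, ∃ z : ℕ, ord i e j = z
  le : ∀ i, ∀ e ∈ S, ∑ j, x j * ord i e j ≤ coef e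
  mono : ∀ i, ∀ e ∈ S, ∑ j, x j * ord i e j ≤ ∑ j, x j * ord (i + 1) e j
  mono_lt : ∀ i, ∀ e ∈ S, Inv i e → ∑ j, x j * ord i e j < ∑ j, x j * ord (i + 1) e j
  off : {e | e ∈ S ∧ (Y 0).cod e ≠ 2}.Finite
  M : ℝ
  bound' : ∀ T : Finset E, (∀ e ∈ T, e ∈ S ∧ (Y 0).cod e = 2) →
    ∑ e ∈ T, (coef e - ∑ j, x j * ord 0 e j) ≤ M
  create : ∀ i e, Inv i e → (Y (i + 1)).cod e = 2 → ∃ f ∈ S, Inv i f ∧ (Y (i + 1)).cod f = 2
  rk : ℕ → ℕ
  drop : ∀ i, (∀ e, Inv i e → (Y (i + 1)).cod e ≠ 2) → rk (i + 1) ≤ rk i ∧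
    ((∃ e, Inv i e ∧ (Y i).cod e = 2) → rk (i + 1) < rk i)

attribute [instance] Aux.fin

namespace Aux

variable {V E : Type} [AddCommGroup V] [Module ℝ V] (R : Aux V E)

/-- the multiplicity of `∑ x_j F_j` on `Y_i` -/
noncomputable def w (i : ℕ) (e : E) : ℝ := ∑ j, R.x j * R.ord i e j

theorem w_mono {e : E} (he : e ∈ R.S) : Monotone fun i => R.w i e :=
  monotone_nat_of_le_succ fun i => R.mono i e he

/-- the possible values -/
def vals : Set ℝ := {r | r ≤ R.C ∧ ∃ z : R.J → ℕ, r = ∑ j, R.x j * z j}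

theorem vals_finite : R.vals.Finite := by
  classical
  have h1 : ∀ j, ∃ n : ℕ, R.C / R.x j < n := fun j => exists_nat_gt _
  choose n hn using h1
  have h2 : (Set.pi Set.univ fun j => Set.Iic (n j) : Set (R.J → ℕ)).Finite :=
    Set.Finite.pi fun j => Set.finite_Iic _
  refine (h2.image fun z => ∑ j, R.x j * (z j : ℝ)).subset ?_
  rintro r ⟨hr, z, rfl⟩
  refine ⟨z, fun j _ => ?_, rfl⟩
  have h3 : R.x j * z j ≤ R.C := le_trans
    (Finset.single_le_sum (f := fun j => R.x j * (z j : ℝ))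
      (fun i _ => mul_nonneg (R.x_pos i).le (Nat.cast_nonneg _)) (Finset.mem_univ j)) hr
  have h4 : (z j : ℝ) ≤ R.C / R.x j := by
    rw [le_div_iff₀ (R.x_pos j)]
    linarith
  have h5 : (z j : ℝ) < n j := lt_of_le_of_lt h4 (hn j)
  exact_mod_cast h5.le

theorem mem_vals {i : ℕ} {e : E} (he : e ∈ R.S) (h : (R.Y i).cod e = 2) : R.w i e ∈ R.vals := by
  refine ⟨(R.le i e he).trans (R.coef_le e he), ?_⟩
  choose z hz using R.int i e he h
  exact ⟨z, Finset.sum_congr rfl fun j _ => by rw [hz]⟩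

/-- the smallest positive difference of two values -/
theorem exists_gap : ∃ g : ℝ, 0 < g ∧ ∀ r ∈ R.vals, ∀ r' ∈ R.vals, r < r' → g ≤ r' - r := by
  classical
  have h1 : ((R.vals ×ˢ R.vals) ∩ {p | p.1 < p.2}).Finite :=
    (R.vals_finite.prod R.vals_finite).inter_of_left _
  by_cases h2 : ((R.vals ×ˢ R.vals) ∩ {p | p.1 < p.2}).Nonempty
  · obtain ⟨p, hp, hmin⟩ := h1.exists_minimalFor (fun p => p.2 - p.1) _ h2
    refine ⟨p.2 - p.1, sub_pos.2 hp.2, fun r hr r' hr' h => ?_⟩
    by_contra hlt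
    rw [not_le] at hlt
    have := hmin (j := (r, r')) ⟨⟨hr, hr'⟩, h⟩ hlt.le
    simp only at this
    linarith
  · refine ⟨1, one_pos, fun r hr r' hr' h => ?_⟩
    exact absurd ⟨(r, r'), ⟨hr, hr'⟩, h⟩ h2

/-- the divisors in `S` the centres of which are created in codimension two by some step -/
def created : Set E := {e | e ∈ R.S ∧ ∃ i, R.Inv i e ∧ (R.Y (i + 1)).cod e = 2}

theorem created_finite : R.created.Finite := by
  classical
  obtain ⟨g, hg, hgap⟩ := R.exists_gap
  have h1 : ∀ e ∈ R.created, (R.Y 0).cod e = 2 → g ≤ R.coef e - R.w 0 e := by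
    rintro e ⟨he, i, hi, hs⟩ h0
    have h2 : R.w 0 e ≤ R.w i e := R.w_mono he (Nat.zero_le i)
    have h3 : R.w i e < R.w (i + 1) e := R.mono_lt i e he hi
    have h4 := hgap _ (R.mem_vals he h0) _ (R.mem_vals he hs) (lt_of_le_of_lt h2 h3)
    have h5 : R.w (i + 1) e ≤ R.coef e := R.le (i + 1) e he
    linarith
  have h2 : (R.created ∩ {e | (R.Y 0).cod e = 2}).Finite := by
    by_contra hinf
    obtain ⟨n, hn⟩ := exists_nat_gt (R.M / g)
    obtain ⟨T, hT, hcard⟩ := Set.Infinite.exists_subset_card_eq hinf n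
    have h3 := R.bound' T fun e he => ⟨(hT he).1.1, (hT he).2⟩
    have h4 : (T.card : ℝ) * g ≤ ∑ e ∈ T, (R.coef e - ∑ j, R.x j * R.ord 0 e j) := by
      rw [← nsmul_eq_mul]
      exact Finset.card_nsmul_le_sum _ _ _ fun e he => h1 e (hT he).1 (hT he).2
    rw [hcard] at h4
    rw [div_lt_iff₀ hg] at hn
    linarith
  refine (h2.union R.off).subset fun e he => ?_
  by_cases h : (R.Y 0).cod e = 2
  · exact Or.inl ⟨he, h⟩
  · exact Or.inr ⟨he.1, h⟩

theorem times_finite {e : E} (he : e ∈ R.S) : {i | R.Inv i e ∧ (R.Y (i + 1)).cod e = 2}.Finite := by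
  refine Set.Finite.of_finite_image (f := fun i => R.w (i + 1) e)
    (R.vals_finite.subset ?_) ?_
  · rintro r ⟨i, hi, rfl⟩
    exact R.mem_vals he hi.2
  · have key : ∀ i i', R.Inv i' e → i < i' → R.w (i + 1) e < R.w (i' + 1) e := fun i i' h' hlt =>
      lt_of_le_of_lt (R.w_mono he (Nat.succ_le_of_lt hlt)) (R.mono_lt i' e he h')
    intro i hi i' hi' h
    rcases lt_trichotomy i i' with hlt | heq | hlt
    · exact absurd h (key i i' hi'.1 hlt).ne
    · exact heq
    · exact absurd h (key i' i hi.1 hlt).ne'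

/-- From some step on nothing of codimension two is created. -/
theorem exists_no_creation : ∃ N, ∀ i, N ≤ i → ∀ e, R.Inv i e → (R.Y (i + 1)).cod e ≠ 2 := by
  have h1 : {i | ∃ e ∈ R.S, R.Inv i e ∧ (R.Y (i + 1)).cod e = 2}.Finite := by
    refine (R.created_finite.biUnion fun e he => R.times_finite he.1).subset ?_
    rintro i ⟨e, heS, he⟩
    exact Set.mem_biUnion (show e ∈ R.created from ⟨heS, i, he⟩) he
  obtain ⟨N, hN⟩ := h1.bddAbove
  refine ⟨N + 1, fun i hi e h2 h3 => ?_⟩
  obtain ⟨f, hfS, hf⟩ := R.create i e h2 h3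
  have := hN (show i ∈ {i | ∃ e ∈ R.S, R.Inv i e ∧ (R.Y (i + 1)).cod e = 2} from ⟨f, hfS, hf⟩)
  omega

/-- From some step on nothing of codimension two is in the locus of a step. -/
theorem exists_iso : ∃ N, ∀ i, N ≤ i → ∀ e, R.Inv i e → 3 ≤ (R.Y i).cod e := by
  obtain ⟨N, hN⟩ := R.exists_no_creation
  -- the minimum of the numbers `rk`
  have hex : ∃ r, ∃ i, N ≤ i ∧ R.rk i = r := ⟨_, N, le_rfl, rfl⟩
  classical
  obtain ⟨m, hm, hr⟩ := Nat.find_spec hex
  have h1 : ∀ i, m ≤ i → R.rk i = R.rk m := by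
    intro i hi
    induction i, hi using Nat.le_induction with
    | base => rfl
    | succ i hi ih =>
      have h2 := (R.drop i (hN i (hm.trans hi))).1
      have h3 : Nat.find hex ≤ R.rk (i + 1) := Nat.find_min' hex ⟨i + 1, by omega, rfl⟩
      omega
  refine ⟨m, fun i hi e he => ?_⟩
  have h2 := R.small i e he
  by_contra h3
  have h4 := (R.drop i (hN i (hm.trans hi))).2 ⟨e, he, by omega⟩
  rw [h1 i hi, h1 (i + 1) (by omega)] at h4
  exact lt_irrefl _ h4

include R in
/-- **Termination** in all dimensions. -/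
theorem false : False := by
  obtain ⟨N, hN⟩ := R.exists_iso
  exact R.not_nef N (R.toProg.nef_of_iso N hN)

end Aux

open Pool.Agent.H33.FT Finset in
/-- **Termination** in all dimensions. -/
theorem Run.false {V E : Type} [AddCommGroup V] [Module ℝ V] {a : E → ℕ} {x : E → ℝ} {lam lam' : ℝ}
    (P : Run V a x lam) (hlam : 0 < lam) (hlam' : lam < lam') (hlct : ∀ E, lam' * x E ≤ a E + 1)
    (hx : ∀ E, 0 ≤ x E) : False := by
  classical
  obtain ⟨δ, hδ, hδ1, hδj⟩ : ∃ δ : ℝ, 0 < δ ∧ δ ≤ 1 ∧ ∀ j, δ ≤ lam * x (P.F j) - a (P.F j) := by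
    rcases isEmpty_or_nonempty P.J with hJ | hJ
    · exact ⟨1, one_pos, le_rfl, fun j => (hJ.false j).elim⟩
    · obtain ⟨i, hi⟩ := Finite.exists_min fun j => (lam * x (P.F j) - a (P.F j) : ℝ)
      have := P.a_lt i
      exact ⟨min (lam * x (P.F i) - a (P.F i)) 1, lt_min (by linarith) one_pos, min_le_right _ _,
        fun j => (min_le_left _ _).trans (hi j)⟩
  have hl : 0 < lam' := hlam.trans hlam'
  have hw : ∀ E, 2 ≤ (P.Y 0).cod E → 0 ≤ ∑ j, x (P.F j) * P.ord 0 E j := fun E hE =>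
    sum_nonneg fun j _ => mul_nonneg (P.x_pos j).le (P.nonneg 0 E j hE)
  obtain ⟨hfin, C, hC⟩ := Count.exists_count hlam hlam' hlct hx P.disc_pos hδ hw (P.le 0) P.res
  refine Aux.false (V := V) (E := E) {
    toProg := P.toProg
    not_nef := P.not_nef
    small := P.small
    J := P.J
    x := fun j => x (P.F j)
    x_pos := P.x_pos
    S := {E | 2 ≤ (P.Y 0).cod E ∧ a E - lam * x E ≤ 1 - δ}
    coef := x
    C := 2 / (1 - lam / lam') / lam'
    coef_le := ?_
    ord := P.ord
    int := fun i e he h => P.int i e h he.1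
    le := fun i e he => P.le i e he.1
    mono := fun i e he => P.mono i e he.1
    mono_lt := fun i e he => P.mono_lt i e he.1
    off := hfin
    M := C
    bound' := ?_
    create := ?_
    rk := P.rk
    drop := P.drop }
  · rintro e he
    have h2 := Count.bound_a (x := x) (a := a) (D := E) hlam hlam' hlct he.2 hδ
    rw [le_div_iff₀ hl]
    have := hlct e
    linarith
  · intro T hT
    exact hC T fun e he => (hT e he).1
  · intro i e he hc
    obtain ⟨f, hf, hI, hS, ⟨j, hj⟩, hd⟩ := P.create i e he hc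
    refine ⟨f, ⟨hf, ?_⟩, hI, hS⟩
    -- the multiplicity of `F_j` is at least one
    obtain ⟨z, hz⟩ := P.int (i + 1) f hS hf j
    have hz1 : (1 : ℝ) ≤ P.ord (i + 1) f j := by
      rw [hz] at hj ⊢
      exact_mod_cast hj
    have h2 : (lam * x (P.F j) - a (P.F j)) * P.ord (i + 1) f j ≤
        ∑ j, (lam * x (P.F j) - a (P.F j)) * P.ord (i + 1) f j :=
      single_le_sum (f := fun j => (lam * x (P.F j) - a (P.F j)) * P.ord (i + 1) f j)
        (fun j _ => mul_nonneg (by have := P.a_lt j; linarith) (P.nonneg _ _ _ hf)) (mem_univ j)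
    have h3 := hδj j
    nlinarith

/-- **Termination.** -/
theorem Steps.false {E : Type} {a : E → ℕ} {x : E → ℝ} {lam lam' : ℝ} (S : Steps a x lam)
    (hlam : 0 < lam) (hlam' : lam < lam') (hlct : ∀ E, lam' * x E ≤ a E + 1) (hx : ∀ E, 0 ≤ x E) :
    False :=
  letI := S.grp
  letI := S.mod
  S.run.false hlam hlam' hlct hx

end Pool.Agent.H55.XN
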